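import Pool.Agent.L7h10.Cup.Johnson

/-!
# Cup stacking: every graph with a Hamiltonian path starting at `r` is `r`-stackable

The known theorem says that Hamiltonian graphs of diameter two are stackable, and the question asks
about the connected generalized Johnson graphs of diameter at least three. We remove the
hypothesis on the diameter: all the cups of a path `c = u₀, u₁, …, uₙ` can be collected on `c`. Let
`e = dist (c, uₙ) ≤ n`; collect (by induction) the cups of the last `e` vertices on `uₙ`, jump from
`uₙ` to `c`, and collect the remaining path `u₀, …, uₙ₋ₑ` on `c` (again by induction).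

Hence a generalized Johnson graph (it is vertex-transitive) is stackable as soon as it has one
Hamiltonian path. The revolving door order gives this for the Johnson graphs `J(m, k, k - 1)`, and
the theorem of Merino, Mütze and Namrata gives it for all the connected generalized Johnson graphs.
-/

set_option autoImplicit false

namespace Pool.Agent.Results.MP_463e5e_co.TraceableStackable

open Relation

/-- A move `u ↦ v` turns the configuration `C` into `C'`. -/
def Move {V : Type*} (G : SimpleGraph V) (C C' : V → ℕ) : Prop :=
  ∃ u v : V, 1 ≤ C u ∧ 1 ≤ C v ∧ G.dist u v = C u ∧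
    C' u = 0 ∧ C' v = C u + C v ∧ ∀ w, w ≠ u → w ≠ v → C' w = C w

/-- `G` is `r`-stackable. -/
def StackableAt {V : Type*} (G : SimpleGraph V) (r : V) : Prop :=
  ∃ C : V → ℕ, ReflTransGen (Move G) (fun _ => 1) C ∧ C r = Nat.card V ∧ ∀ v, v ≠ r → C v = 0

/-- `G` is stackable. -/
def Stackable {V : Type*} (G : SimpleGraph V) : Prop := ∀ r, StackableAt G r

/-- The generalized Johnson graph `J(m, k, s)`. -/
def J (m k s : ℕ) : SimpleGraph {A : Finset (Fin m) // A.card = k} where
  Adj A B := A ≠ B ∧ (A.1 ∩ B.1).card = s
  symm := ⟨fun A B h => ⟨h.1.symm, by rw [Finset.inter_comm]; exact h.2⟩⟩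
  loopless := ⟨fun A h => h.1 rfl⟩

/-- Every graph with a Hamiltonian path starting at `r` is `r`-stackable, whatever its diameter;
so a generalized Johnson graph with a Hamiltonian path is stackable, the Johnson graphs
`J(m, k, k - 1)` are stackable, and, given the theorem of Merino, Mütze and Namrata, all the
connected generalized Johnson graphs are stackable. -/
theorem result :
    (∀ (V : Type) [DecidableEq V] (G : SimpleGraph V) (r b : V) (p : G.Walk r b),
      p.IsHamiltonian → StackableAt G r) ∧
    (∀ (V : Type) [Fintype V] [DecidableEq V] (G : SimpleGraph V),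
      G.IsHamiltonian → Stackable G) ∧
    (∀ (m k s : ℕ) (a b : {A : Finset (Fin m) // A.card = k}) (p : (J m k s).Walk a b),
      p.IsHamiltonian → Stackable (J m k s)) ∧
    (∀ m k : ℕ, 0 < k → k ≤ m → Stackable (J m k (k - 1))) ∧
    ((∀ m k s : ℕ, s < k → 2 * k + 1 ≤ m + s → ¬ (m = 5 ∧ k = 2 ∧ s = 0) →
        (J m k s).IsHamiltonian) →
      ∀ m k s : ℕ, s < k → k ≤ m → (J m k s).Connected → Stackable (J m k s)) := by
  refine ⟨?_, ?_, ?_, ?_, ?_⟩
  · intro V _ G r b p hp
    exact (L7h10.Cup.HPath.of_walk p hp).stackable
  · intro V _ _ G hG r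
    exact (L7h10.Cup.HPath.of_isHamiltonian hG r).stackable
  · intro m k s a b p hp r
    obtain ⟨φ, hφ⟩ := L7h10.Cup.exists_iso m k s a r
    have h := (L7h10.Cup.HPath.of_walk p hp).map φ
    rw [hφ] at h
    exact h.stackable
  · intro m k hk _ r
    exact (L7h10.Cup.johnson hk r).stackable
  · intro hM m k s hs _ hc r
    exact (L7h10.Cup.all_of_hamiltonian hM m k s hs hc r).stackable

end Pool.Agent.Results.MP_463e5e_co.TraceableStackable
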